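import Pool.Agent.MWFE.StmtsA

/-!
# MWFE, row HHX: adjacent heavy letters commute
-/

set_option autoImplicit false

namespace Pool.Agent.MWFE.H52

open Pool.Agent.Helper14_MV Pool.Agent.Helper2_MV Pool.Agent.MVD
open Pool.Agent.MWE (Can XX fxy dxy dx dy up cp L4 pr Xs xl isx Fs nd nr)
open Pool.Agent.MWGR (cb)
open Pool.Agent.MWFE

theorem fac_mid (p m m' q a G b : List ℕ) (hm : ∀ d, m.count d ≤ m'.count d)
    (h : p ++ (m ++ q) = a ++ (G ++ b)) :
    ∃ a' G' b', p ++ (m' ++ q) = a' ++ (G' ++ b') ∧ (∀ d ∈ G', d ∈ G ∨ d ∈ m') ∧
      ∀ d, G.count d ≤ G'.count d := by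
  rcases List.append_eq_append_iff.1 h with ⟨t, e1, e2⟩ | ⟨t, e1, e2⟩
  · rcases List.append_eq_append_iff.1 e2 with ⟨s, f1, f2⟩ | ⟨s, f1, f2⟩
    · -- the factor is behind the middle
      refine ⟨p ++ (m' ++ s), G, b, ?_, fun d hd => Or.inl hd, fun d => le_rfl⟩
      rw [f2]; simp
    · rcases List.append_eq_append_iff.1 f2 with ⟨s2, g1, g2⟩ | ⟨s2, g1, g2⟩
      · refine ⟨p, m', q, rfl, fun d hd => Or.inr hd, fun d => ?_⟩
        have h1 := hm d
        rw [f1, g1] at h1
        simp only [List.count_append] at h1 ⊢
        omega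
      · refine ⟨p, m' ++ s2, b, ?_, ?_, fun d => ?_⟩
        · rw [g2]; simp
        · intro d hd
          rcases List.mem_append.1 hd with hd | hd
          · exact Or.inr hd
          · left
            rw [g1]
            exact List.mem_append_right _ hd
        · have h1 := hm d
          rw [f1] at h1
          rw [g1]
          simp only [List.count_append] at h1 ⊢
          omega
  · rcases List.append_eq_append_iff.1 e2 with ⟨s, f1, f2⟩ | ⟨s, f1, f2⟩
    · -- the factor is before the middle
      refine ⟨a, G, s ++ (m' ++ q), ?_, fun d hd => Or.inl hd, fun d => le_rfl⟩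
      rw [e1, f1]; simp
    · rcases List.append_eq_append_iff.1 f2 with ⟨s2, g1, g2⟩ | ⟨s2, g1, g2⟩
      · refine ⟨a, t ++ (m' ++ s2), b, ?_, ?_, fun d => ?_⟩
        · rw [e1, g2]; simp
        · intro d hd
          rw [f1, g1]
          simp only [List.mem_append] at hd ⊢
          tauto
        · have h1 := hm d
          rw [f1, g1]
          simp only [List.count_append] at h1 ⊢
          omega
      · refine ⟨a, t ++ m', q, ?_, ?_, fun d => ?_⟩
        · rw [e1]; simp
        · intro d hd
          rw [f1]
          simp only [List.mem_append] at hd ⊢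
          tauto
        · have h1 := hm d
          rw [g1] at h1
          rw [f1]
          simp only [List.count_append] at h1 ⊢
          omega

theorem hw_two {w : List ℕ} {v : ℕ} (h : Hw w v) : 2 ≤ w.count v := by
  rcases h with h | ⟨a, G, b, rfl, _, h⟩
  · omega
  · simp only [List.count_append]
    omega

theorem hw_mid {p m m' q : List ℕ} {v : ℕ} (hm : ∀ d, m.count d ≤ m'.count d)
    (h2 : ∀ d ∈ m', 2 ≤ (p ++ (m' ++ q)).count d) (h : Hw (p ++ (m ++ q)) v) :
    Hw (p ++ (m' ++ q)) v := by
  have hc : ∀ d, (p ++ (m ++ q)).count d ≤ (p ++ (m' ++ q)).count d := by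
    intro d
    have h1 := hm d
    simp only [List.count_append]
    omega
  rcases h with h | ⟨a, G, b, e, hM, hG⟩
  · left
    have := hc v
    omega
  · right
    obtain ⟨a', G', b', e', hm', hcc⟩ := fac_mid p m m' q a G b hm e
    refine ⟨a', G', b', e', ?_, ?_⟩
    · intro d hd
      rcases hm' d hd with h3 | h3
      · have h4 := hM d h3
        have h5 := hc d
        omega
      · exact h2 d h3
    · have := hcc v
      omega

theorem hhx (hSQP : SqpStmt) (hTHK : ThkStmt) : HhxStmt := by
  intro n β H p q u v hu hv
  have hn := H.n2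
  have hu2 := hw_two hu
  have hv2 := hw_two hv
  -- the power in place of the first letter
  have grow : ∀ (a b : ℕ) (r : List ℕ), Hw (p ++ a :: r) a → Hw (p ++ a :: r) b →
      Hw ((p ++ List.replicate (n + 1) a) ++ r) b := by
    intro a b r h1 h2
    have h3 := hw_two h1
    have hcn : ∀ d, ([a] : List ℕ).count d ≤ (List.replicate (n + 1) a).count d := by
      intro d
      by_cases hd : a = d
      · subst hd; simp
      · simp [hd]
    have h4 : Hw (p ++ (List.replicate (n + 1) a ++ r)) b := by
      refine hw_mid (m := [a]) hcn ?_ (by simpa using h2)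
      intro d hd
      rw [List.mem_replicate] at hd
      rw [hd.2]
      have h5 := hcn a
      have h6 : (p ++ a :: r).count a = p.count a + (([a] : List ℕ).count a + r.count a) := by
        simp [Nat.add_comm]
      simp only [List.count_append]
      omega
    simpa using h4
  have one : ∀ (P r : List ℕ) (a : ℕ), Hw (P ++ a :: r) a →
      RR β (P ++ a :: r) (P ++ (List.replicate (n + 1) a ++ r)) := by
    intro P r a h
    have h1 := hTHK n β H P r a 1 h
    rw [one_mul] at h1
    exact h1
  have two : ∀ a b : ℕ, Hw (p ++ a :: b :: q) a → Hw (p ++ a :: b :: q) b →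
      RR β (p ++ a :: b :: q)
        (p ++ ((List.replicate (n + 1) a ++ List.replicate (n + 1) b) ++ q)) := by
    intro a b h1 h2
    have s1 := one p (b :: q) a h1
    have s2 := one (p ++ List.replicate (n + 1) a) q b (grow a b (b :: q) h1 h2)
    have e1 : p ++ (List.replicate (n + 1) a ++ b :: q) =
        (p ++ List.replicate (n + 1) a) ++ b :: q := by simp
    have e2 : p ++ ((List.replicate (n + 1) a ++ List.replicate (n + 1) b) ++ q) =
        (p ++ List.replicate (n + 1) a) ++ (List.replicate (n + 1) b ++ q) := by simp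
    rw [e2]
    rw [e1] at s1
    exact β.trans s1 s2
  -- the swapped word
  have sw : ∀ c : ℕ, Hw (p ++ u :: v :: q) c → Hw (p ++ v :: u :: q) c := by
    intro c h
    have h1 : Hw (p ++ ([v, u] ++ q)) c := by
      refine hw_mid (m := [u, v]) ?_ ?_ (by simpa using h)
      · intro d
        exact le_of_eq ((List.Perm.swap v u []).count_eq d)
      · intro d hd
        have hp : (p ++ ([v, u] ++ q)).Perm (p ++ u :: v :: q) := by
          apply List.Perm.append_left
          exact List.Perm.swap u v q
        rw [hp.count_eq]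
        simp only [List.mem_cons, List.not_mem_nil, or_false] at hd
        rcases hd with rfl | rfl
        · exact hv2
        · exact hu2
    simpa using h1
  have t1 := two u v hu hv
  have t2 := two v u (sw v hv) (sw u hu)
  have t3 : RR β (p ++ ((List.replicate (n + 1) u ++ List.replicate (n + 1) v) ++ q))
      (p ++ ((List.replicate (n + 1) v ++ List.replicate (n + 1) u) ++ q)) :=
    (RR.refl p).append ((hSQP n β H u v (n + 1) (n + 1) (by omega) (by omega)).append (RR.refl q))
  exact β.trans t1 (β.trans t3 t2.symm)

end Pool.Agent.MWFE.H52
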